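import Pool.Agent.NH62.WK.Main

set_option autoImplicit false

namespace Pool.Agent.Results.MP_6e86bf_an.WeakMeasuresEquivalent

open Pool.Agent.NH62.WK

universe u

/-- For every uniformly separated metric space `M` the measures of weak non-compactness `omega` and
`wk` are equivalent in the Lipschitz-free space of `M`, with the universal constant `200`. -/
theorem result (M : Type u) [MetricSpace M] (o : M) (hM : UniformlySeparated M)
    (A : Set (Free M o)) (hA : Bornology.IsBounded A) : omega A ≤ 200 * wk A := by
  obtain ⟨s, hs, sep⟩ := hM
  exact omega_le_wk s hs sep A hA

end Pool.Agent.Results.MP_6e86bf_an.WeakMeasuresEquivalent
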